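import Pool.Agent.W708.OC.Sem

/-!
Selections of options coming from four pairwise almost orthogonal families of chains are
admissible.
-/

set_option autoImplicit false

namespace Pool.Agent.W439.OC

open Pool.Agent.W708.OC

/-- number of bits -/
def pc (m : Nat) : Nat :=
  (m.testBit 0).toNat + (m.testBit 1).toNat + (m.testBit 2).toNat + (m.testBit 3).toNat +
    (m.testBit 4).toNat + (m.testBit 5).toNat

def T1b : Bool := (List.range 180).all fun q =>
  (pc (dX q) == 2) && (pc (dT q) == 3) && (pc (dY q) == 4) &&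
    (Nat.land (dX q) (dT q) == dX q) && (Nat.land (dT q) (dY q) == dT q)

def T2b : Bool := (List.range 180).all fun q => (List.range 180).all fun q' =>
  !(dX q == dX q') || !(dT q == dT q') || !(dY q == dY q') || (q == q')

def T3b : Bool := (List.range 64).all fun x => !(pc x == 2) || (List.range 64).all fun t =>
  !(pc t == 3) || !(Nat.land x t == x) || (List.range 64).all fun y =>
    !(pc y == 4) || !(Nat.land t y == t) || (List.range 180).any fun q =>
      (dX q == x) && (dT q == t) && (dY q == y)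

theorem T1h : T1b = true := by decide +kernel
theorem T2h : T2b = true := by decide +kernel
theorem T3h : T3b = true := by decide +kernel

theorem mem_S {m : Nat} {i : Fin 6} : i ∈ S m ↔ m.testBit i.val = true := by
  simp [S]

theorem card_S (m : Nat) : (S m).card = pc m := by
  unfold S pc
  rw [Finset.card_filter]
  simp only [Fin.sum_univ_six]
  have h : ∀ b : Bool, (if b = true then 1 else 0) = b.toNat := by decide
  simp only [h]
  rfl

theorem tb_false {m i : Nat} (hm : m < 64) (hi : 6 ≤ i) : m.testBit i = false := by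
  apply Nat.testBit_lt_two_pow
  calc m < 64 := hm
    _ = 2 ^ 6 := by norm_num
    _ ≤ 2 ^ i := Nat.pow_le_pow_right (by norm_num) hi

theorem S_inj {a b : Nat} (ha : a < 64) (hb : b < 64) (h : S a = S b) : a = b := by
  refine Nat.eq_of_testBit_eq fun i => ?_
  by_cases hi : i < 6
  · have h1 : (⟨i, hi⟩ : Fin 6) ∈ S a ↔ (⟨i, hi⟩ : Fin 6) ∈ S b := by rw [h]
    rw [mem_S, mem_S] at h1
    exact Bool.eq_iff_iff.2 h1
  · rw [tb_false ha (by omega), tb_false hb (by omega)]

theorem S_surj (s : F6) : ∃ m, m < 64 ∧ S m = s := by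
  have hinj : Function.Injective (fun m : Fin 64 => S m.val) := by
    intro a b h
    exact Fin.ext (S_inj a.2 b.2 h)
  have hbij := (Fintype.bijective_iff_injective_and_card (fun m : Fin 64 => S m.val)).2
    ⟨hinj, by simp⟩
  obtain ⟨m, hm⟩ := hbij.2 s
  exact ⟨m.val, m.2, hm⟩

theorem land_of_sub {a b : Nat} (ha : a < 64) (h : S a ⊆ S b) : Nat.land a b = a := by
  refine Nat.eq_of_testBit_eq fun i => ?_
  have e : Nat.land a b = a &&& b := rfl
  rw [e, Nat.testBit_and]
  by_cases hi : i < 6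
  · cases h1 : a.testBit i with
    | false => simp
    | true =>
      have h2 : (⟨i, hi⟩ : Fin 6) ∈ S b := h (mem_S.2 h1)
      rw [mem_S] at h2
      simp [h2]
  · rw [tb_false ha (by omega)]
    simp

theorem sub_of_land {a b : Nat} (h : Nat.land a b = a) : S a ⊆ S b := by
  intro i hi
  rw [mem_S] at hi ⊢
  have e : Nat.land a b = a &&& b := rfl
  rw [← h, e, Nat.testBit_and] at hi
  simp only [Bool.and_eq_true] at hi
  exact hi.2

theorem dX_lt (q : Nat) : dX q < 64 := by
  have : dX q ≤ 63 := Nat.and_le_right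
  omega

theorem dT_lt (q : Nat) : dT q < 64 := by
  have : dT q ≤ 63 := Nat.and_le_right
  omega

theorem dY_lt (q : Nat) : dY q < 64 := by
  have : dY q ≤ 63 := Nat.and_le_right
  omega

theorem table {q : Nat} (hq : q < 180) : (S (dX q)).card = 2 ∧ (S (dT q)).card = 3 ∧
    (S (dY q)).card = 4 ∧ S (dX q) ⊆ S (dT q) ∧ S (dT q) ⊆ S (dY q) := by
  have h := T1h
  unfold T1b at h
  rw [List.all_eq_true] at h
  have h1 := h q (List.mem_range.2 hq)
  simp only [Bool.and_eq_true, beq_iff_eq] at h1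
  obtain ⟨⟨⟨⟨h2, h3⟩, h4⟩, h5⟩, h6⟩ := h1
  exact ⟨by rw [card_S, h2], by rw [card_S, h3], by rw [card_S, h4], sub_of_land h5,
    sub_of_land h6⟩

theorem table_inj {q q' : Nat} (hq : q < 180) (hq' : q' < 180) (hX : dX q = dX q')
    (hT : dT q = dT q') (hY : dY q = dY q') : q = q' := by
  have h := T2h
  unfold T2b at h
  rw [List.all_eq_true] at h
  have h1 := h q (List.mem_range.2 hq)
  rw [List.all_eq_true] at h1
  have h2 := h1 q' (List.mem_range.2 hq')
  simpa [hX, hT, hY] using h2

theorem table_surj {x t y : F6} (hx : x.card = 2) (ht : t.card = 3) (hy : y.card = 4)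
    (hxt : x ⊆ t) (hty : t ⊆ y) : ∃ q, q < 180 ∧ S (dX q) = x ∧ S (dT q) = t ∧ S (dY q) = y := by
  obtain ⟨a, ha, rfl⟩ := S_surj x
  obtain ⟨b, hb, rfl⟩ := S_surj t
  obtain ⟨c, hc, rfl⟩ := S_surj y
  rw [card_S] at hx ht hy
  have h := T3h
  unfold T3b at h
  rw [List.all_eq_true] at h
  have h1 := h a (List.mem_range.2 ha)
  rw [hx] at h1
  simp only [BEq.rfl, Bool.not_true, Bool.false_or] at h1
  rw [List.all_eq_true] at h1
  have h2 := h1 b (List.mem_range.2 hb)
  rw [ht, land_of_sub ha hxt] at h2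
  simp only [BEq.rfl, Bool.not_true, Bool.false_or] at h2
  rw [List.all_eq_true] at h2
  have h3 := h2 c (List.mem_range.2 hc)
  rw [hy, land_of_sub hb hty] at h3
  simp only [BEq.rfl, Bool.not_true, Bool.false_or] at h3
  rw [List.any_eq_true] at h3
  obtain ⟨q, hq, h4⟩ := h3
  simp only [Bool.and_eq_true, beq_iff_eq] at h4
  exact ⟨q, List.mem_range.1 hq, by rw [h4.1.1], by rw [h4.1.2], by rw [h4.2]⟩

section
variable {R : Fin 4 → F6 → F6 → Prop} (hR : Good R)
include hR

theorem eq_of_card {d : Fin 4} {s t : F6} (h : R d s t) (hc : s.card = t.card) : s = t := by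
  rcases hR.comp d s t h with h1 | h1
  · exact Finset.eq_of_subset_of_card_le h1 hc.ge
  · exact (Finset.eq_of_subset_of_card_le h1 hc.le).symm

theorem sub_of_card {d : Fin 4} {s t : F6} (h : R d s t) (hc : s.card < t.card) : s ⊆ t := by
  rcases hR.comp d s t h with h1 | h1
  · exact h1
  · exact absurd (Finset.card_le_card h1) (by omega)

/-- a chain of colour `d` through sets of sizes 2, 3, 4 is an option -/
theorem option {d : Nat} (hd : d < 4) {x t y : F6} (hx : x.card = 2) (ht : t.card = 3)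
    (hy : y.card = 4) (h1 : R ⟨d, hd⟩ x t) (h2 : R ⟨d, hd⟩ t y) :
    ∃ q, q < 180 ∧ S (dX q) = x ∧ S (dT q) = t ∧ S (dY q) = y ∧ PR R (4 * q + d) := by
  obtain ⟨q, hq, e1, e2, e3⟩ := table_surj hx ht hy (sub_of_card hR h1 (by omega))
    (sub_of_card hR h2 (by omega))
  refine ⟨q, hq, e1, e2, e3, by omega, ?_, ?_⟩
  · have e4 : (4 * q + d) / 4 = q := by omega
    have e5 : col (4 * q + d) = ⟨d, hd⟩ := by
      unfold col
      exact Fin.ext (by simp; omega)
    rw [e4, e5, e1, e2]
    exact h1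
  · have e4 : (4 * q + d) / 4 = q := by omega
    have e5 : col (4 * q + d) = ⟨d, hd⟩ := by
      unfold col
      exact Fin.ext (by simp; omega)
    rw [e4, e5, e2, e3]
    exact h2

theorem same {o p : Nat} (ho : PR R o) (hp : PR R p) (hd : o % 4 = p % 4)
    (hX : S (dX (o / 4)) = S (dX (p / 4))) (hT : S (dT (o / 4)) = S (dT (p / 4)))
    (hY : S (dY (o / 4)) = S (dY (p / 4))) : o = p := by
  have h1 := table_inj (q := o / 4) (q' := p / 4) (by have := ho.1; omega)
    (by have := hp.1; omega) (S_inj (dX_lt _) (dX_lt _) hX) (S_inj (dT_lt _) (dT_lt _) hT)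
    (S_inj (dY_lt _) (dY_lt _) hY)
  omega

theorem col_eq {o p : Nat} (h : o % 4 = p % 4) : col o = col p := Fin.ext h

theorem col_ne {o p : Nat} (h : o % 4 ≠ p % 4) : col o ≠ col p := fun h1 =>
  h (congrArg Fin.val h1)

/-- two options of the same colour with a common set are equal -/
theorem same_col {o p : Nat} (ho : PR R o) (hp : PR R p) (hd : o % 4 = p % 4)
    (h : S (dX (o / 4)) = S (dX (p / 4)) ∨ S (dT (o / 4)) = S (dT (p / 4)) ∨
      S (dY (o / 4)) = S (dY (p / 4))) : o = p := by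
  obtain ⟨ho1, ho2, ho3⟩ := ho
  obtain ⟨hp1, hp2, hp3⟩ := hp
  have tbo := table (q := o / 4) (by omega)
  have tp := table (q := p / 4) (by omega)
  rw [← col_eq hR hd] at hp2 hp3
  -- T and T' are related
  have key : R (col o) (S (dT (o / 4))) (S (dT (p / 4))) := by
    rcases h with h | h | h
    · refine hR.trans _ _ _ _ (hR.symm _ _ _ ho2) ?_
      rw [h]
      exact hp2
    · refine hR.trans _ _ _ _ ho3 (hR.symm _ _ _ ?_)
      rw [← h]
      exact ho3
    · refine hR.trans _ _ _ _ ho3 ?_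
      rw [h]
      exact hR.symm _ _ _ hp3
  have eT := eq_of_card hR key (by rw [tbo.2.1, tp.2.1])
  have eX : S (dX (o / 4)) = S (dX (p / 4)) := by
    refine eq_of_card hR (hR.trans _ _ _ _ ho2 ?_) (by rw [tbo.1, tp.1])
    rw [eT]
    exact hR.symm _ _ _ hp2
  have eY : S (dY (o / 4)) = S (dY (p / 4)) := by
    refine eq_of_card hR (hR.trans _ _ _ _ (hR.symm _ _ _ ho3) ?_) (by rw [tbo.2.2.1, tp.2.2.1])
    rw [eT]
    exact hp3
  exact same hR ⟨ho1, ho2, ho3⟩ ⟨hp1, by rw [← col_eq hR hd]; exact hp2,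
    by rw [← col_eq hR hd]; exact hp3⟩ hd eX eT eY

theorem adm_of_good' : Adm (PR R) where
  lt o h := h.1
  i0 q0 hq0 d hd := by
    have t0 := table hq0
    obtain ⟨t, ht, h1⟩ := hR.up ⟨d, hd⟩ (S (dX q0)) 3 (by omega) (by omega)
    obtain ⟨y, hy, h2⟩ := hR.up ⟨d, hd⟩ (S (dX q0)) 4 (by omega) (by omega)
    obtain ⟨q, hq, e1, -, -, h3⟩ := option hR hd t0.1 ht hy h1
      (hR.trans _ _ _ _ (hR.symm _ _ _ h1) h2)
    exact ⟨q, hq, S_inj (dX_lt _) (dX_lt _) e1, h3⟩
  i1 q0 hq0 d hd := by
    have t0 := table hq0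
    obtain ⟨t, ht, h1⟩ := hR.down ⟨d, hd⟩ (S (dY q0)) 3 (by omega) (by omega)
    obtain ⟨x, hx, h2⟩ := hR.down ⟨d, hd⟩ (S (dY q0)) 2 (by omega) (by omega)
    obtain ⟨q, hq, -, -, e1, h3⟩ := option hR hd hx ht t0.2.2.1
      (hR.trans _ _ _ _ (hR.symm _ _ _ h2) h1) (hR.symm _ _ _ h1)
    exact ⟨q, hq, S_inj (dY_lt _) (dY_lt _) e1, h3⟩
  i2 q0 hq0 := by
    have t0 := table hq0
    have hex : ∀ d : Fin 4, ∃ i : Fin 6, i ∉ S (dX q0) ∧ R d (S (dX q0)) (insert i (S (dX q0))) := by
      intro d
      obtain ⟨t, ht, h1⟩ := hR.up d (S (dX q0)) 3 (by omega) (by omega)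
      have hs := sub_of_card hR h1 (by omega)
      have hc : (t \ S (dX q0)).card = 1 := by
        rw [Finset.card_sdiff_of_subset hs, ht, t0.1]
      obtain ⟨i, hi⟩ := Finset.card_eq_one.1 hc
      have hi1 : i ∈ t \ S (dX q0) := by rw [hi]; simp
      rw [Finset.mem_sdiff] at hi1
      refine ⟨i, hi1.2, ?_⟩
      have : insert i (S (dX q0)) = t := by
        refine Finset.eq_of_subset_of_card_le (Finset.insert_subset hi1.1 hs) ?_
        rw [Finset.card_insert_of_notMem hi1.2, ht, t0.1]
      rw [this]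
      exact h1
    choose g hg1 hg2 using hex
    have hgi : Function.Injective g := by
      intro d e hde
      by_contra hne
      have h2 := hg2 e
      rw [← hde] at h2
      refine hR.orth d e _ _ hne ?_ (by omega) (by omega) (hg2 d) h2
      intro h3
      apply hg1 d
      rw [h3]
      exact Finset.mem_insert_self _ _
    have himg : Finset.univ.image g = (S (dX q0))ᶜ := by
      refine Finset.eq_of_subset_of_card_le ?_ ?_
      · intro i hi
        obtain ⟨d, -, rfl⟩ := Finset.mem_image.1 hi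
        exact Finset.mem_compl.2 (hg1 d)
      · rw [Finset.card_image_of_injective _ hgi, Finset.card_compl, t0.1]
        simp
    have hc : (S (dT q0) \ S (dX q0)).card = 1 := by
      rw [Finset.card_sdiff_of_subset t0.2.2.2.1, t0.1, t0.2.1]
    obtain ⟨i, hi⟩ := Finset.card_eq_one.1 hc
    have hi1 : i ∈ S (dT q0) \ S (dX q0) := by rw [hi]; simp
    rw [Finset.mem_sdiff] at hi1
    have hi2 : i ∈ Finset.univ.image g := by
      rw [himg]
      exact Finset.mem_compl.2 hi1.2
    obtain ⟨d, -, hd⟩ := Finset.mem_image.1 hi2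
    have hT : insert i (S (dX q0)) = S (dT q0) := by
      refine Finset.eq_of_subset_of_card_le (Finset.insert_subset hi1.1 t0.2.2.2.1) ?_
      rw [Finset.card_insert_of_notMem hi1.2, t0.1, t0.2.1]
    have h1 : R d (S (dX q0)) (S (dT q0)) := by
      rw [← hT, ← hd]
      exact hg2 d
    obtain ⟨y, hy, h2⟩ := hR.up d (S (dX q0)) 4 (by omega) (by omega)
    obtain ⟨q, hq, e1, e2, -, h3⟩ := option hR d.2 t0.1 t0.2.1 hy h1
      (hR.trans _ _ _ _ (hR.symm _ _ _ h1) h2)
    exact ⟨q, d.val, hq, d.2, S_inj (dX_lt _) (dX_lt _) e1, S_inj (dT_lt _) (dT_lt _) e2, h3⟩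
  i3 q0 hq0 := by
    have t0 := table hq0
    have hex : ∀ d : Fin 4, ∃ i : Fin 6, i ∈ S (dY q0) ∧ R d (S (dY q0)) ((S (dY q0)).erase i) := by
      intro d
      obtain ⟨t, ht, h1⟩ := hR.down d (S (dY q0)) 3 (by omega) (by omega)
      have hs := sub_of_card hR (hR.symm _ _ _ h1) (by omega)
      have hc : (S (dY q0) \ t).card = 1 := by
        rw [Finset.card_sdiff_of_subset hs, ht, t0.2.2.1]
      obtain ⟨i, hi⟩ := Finset.card_eq_one.1 hc
      have hi1 : i ∈ S (dY q0) \ t := by rw [hi]; simp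
      rw [Finset.mem_sdiff] at hi1
      refine ⟨i, hi1.1, ?_⟩
      have : t = (S (dY q0)).erase i := by
        refine Finset.eq_of_subset_of_card_le ?_ ?_
        · intro j hj
          refine Finset.mem_erase.2 ⟨?_, hs hj⟩
          rintro rfl
          exact hi1.2 hj
        · rw [Finset.card_erase_of_mem hi1.1, ht, t0.2.2.1]
      rw [← this]
      exact h1
    choose g hg1 hg2 using hex
    have hgi : Function.Injective g := by
      intro d e hde
      by_contra hne
      have h2 := hg2 e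
      rw [← hde] at h2
      refine hR.orth d e _ _ hne ?_ (by omega) (by omega) (hg2 d) h2
      intro h3
      have := hg1 d
      rw [h3] at this
      exact Finset.notMem_erase _ _ this
    have himg : Finset.univ.image g = S (dY q0) := by
      refine Finset.eq_of_subset_of_card_le ?_ ?_
      · intro i hi
        obtain ⟨d, -, rfl⟩ := Finset.mem_image.1 hi
        exact hg1 d
      · rw [Finset.card_image_of_injective _ hgi, t0.2.2.1]
        simp
    have hc : (S (dY q0) \ S (dT q0)).card = 1 := by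
      rw [Finset.card_sdiff_of_subset t0.2.2.2.2, t0.2.2.1, t0.2.1]
    obtain ⟨i, hi⟩ := Finset.card_eq_one.1 hc
    have hi1 : i ∈ S (dY q0) \ S (dT q0) := by rw [hi]; simp
    rw [Finset.mem_sdiff] at hi1
    have hi2 : i ∈ Finset.univ.image g := by
      rw [himg]
      exact hi1.1
    obtain ⟨d, -, hd⟩ := Finset.mem_image.1 hi2
    have hT : S (dT q0) = (S (dY q0)).erase i := by
      refine Finset.eq_of_subset_of_card_le ?_ ?_
      · intro j hj
        refine Finset.mem_erase.2 ⟨?_, t0.2.2.2.2 hj⟩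
        rintro rfl
        exact hi1.2 hj
      · rw [Finset.card_erase_of_mem hi1.1, t0.2.2.1, t0.2.1]
    have h1 : R d (S (dY q0)) (S (dT q0)) := by
      rw [hT, ← hd]
      exact hg2 d
    obtain ⟨x, hx, h2⟩ := hR.down d (S (dY q0)) 2 (by omega) (by omega)
    obtain ⟨q, hq, -, e2, e1, h3⟩ := option hR d.2 hx t0.2.1 t0.2.2.1
      (hR.trans _ _ _ _ (hR.symm _ _ _ h2) h1) (hR.symm _ _ _ h1)
    exact ⟨q, d.val, hq, d.2, S_inj (dY_lt _) (dY_lt _) e1, S_inj (dT_lt _) (dT_lt _) e2, h3⟩
  c0 o p ho hp hne h := hne (same_col hR ho hp h.2 (Or.inl (by rw [h.1])))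
  c1 o p ho hp hne h := hne (same_col hR ho hp h.2 (Or.inr (Or.inr (by rw [h.1]))))
  c2 o p ho hp hne h := by
    by_cases hd : o % 4 = p % 4
    · exact hne (same_col hR ho hp hd (Or.inl (by rw [h.1])))
    · have tbo := table (q := o / 4) (by have := ho.1; omega)
      have h1 := hp.2.1
      rw [← h.1, ← h.2] at h1
      refine hR.orth _ _ _ _ (col_ne hR hd) (fun h3 => ?_) (by omega) (by omega) ho.2.1 h1
      have := congrArg Finset.card h3
      omega
  c3 o p ho hp hne h := by
    by_cases hd : o % 4 = p % 4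
    · exact hne (same_col hR ho hp hd (Or.inr (Or.inl (by rw [h.2]))))
    · have tbo := table (q := o / 4) (by have := ho.1; omega)
      have h1 := hp.2.2
      rw [← h.1, ← h.2] at h1
      refine hR.orth _ _ _ _ (col_ne hR hd) (fun h3 => ?_) (by omega) (by omega) ho.2.2 h1
      have := congrArg Finset.card h3
      omega
  c4 o p ho hp hne h := hne (same_col hR ho hp h.2 (Or.inr (Or.inl (by rw [h.1]))))
  c5 o p ho hp hne h := by
    by_cases hd : o % 4 = p % 4
    · exact hne (same_col hR ho hp hd (Or.inl (by rw [h.1])))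
    · have tbo := table (q := o / 4) (by have := ho.1; omega)
      have h1 := hR.trans _ _ _ _ hp.2.1 hp.2.2
      rw [← h.1, ← h.2] at h1
      refine hR.orth _ _ _ _ (col_ne hR hd) (fun h3 => ?_) (by omega) (by omega)
        (hR.trans _ _ _ _ ho.2.1 ho.2.2) h1
      have := congrArg Finset.card h3
      omega

end

theorem adm_of_good (R : Fin 4 → F6 → F6 → Prop) (hR : Good R) : Adm (PR R) := adm_of_good' hR

end Pool.Agent.W439.OC
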